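import Pool.Agent.H211.CH.Stm2

/-!
# Roots of the special maps (statement `S_A2` of `Pool.Agent.H211.CH.Stm2`)

For a prime power `q` dividing `m` the set `T_j = {y : P^j y = w, q does not divide mu P^j y}` has exactly one
point for `j ≤ N`; the fibre of `P` over this point has few points and Riemann-Hurwitz applies.
-/

set_option autoImplicit false

open Polynomial

namespace Pool.Agent.H707.CH211

open Pool.Agent.H211.CH

universe u

section

variable {K : Type u} [Field K]

theorem it_zero (P : K[X]) : it P 0 = X := rfl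

theorem it_succ (P : K[X]) (n : ℕ) : it P (n + 1) = P.comp (it P n) := by
  unfold it
  rw [Function.iterate_succ_apply']

theorem it_succ' (P : K[X]) (n : ℕ) : it P (n + 1) = (it P n).comp P := by
  induction n with
  | zero => rw [it_succ, it_zero, comp_X, X_comp]
  | succ n ih =>
    rw [it_succ P (n + 1), ih, ← comp_assoc, ← it_succ, ih]

theorem it_one (P : K[X]) : it P 1 = P := by
  rw [it_succ, it_zero, comp_X]

theorem it_natDegree (P : K[X]) (n : ℕ) : (it P n).natDegree = P.natDegree ^ n := by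
  induction n with
  | zero => rw [it_zero, natDegree_X, pow_zero]
  | succ n ih => rw [it_succ, natDegree_comp, ih, pow_succ']

/-- The fibre of `G` over `x`. -/
noncomputable def fib (G : K[X]) (x : K) : Finset K := by
  classical exact (G - C x).roots.toFinset

theorem sub_C_ne_zero {G : K[X]} (hG : 0 < G.natDegree) (x : K) : G - C x ≠ 0 := by
  intro h
  have h1 : (G - C x).natDegree = G.natDegree := natDegree_sub_C
  rw [h, natDegree_zero] at h1
  omega

theorem mem_fib {G : K[X]} (hG : 0 < G.natDegree) (x y : K) : y ∈ fib G x ↔ G.eval y = x := by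
  classical
  unfold fib
  rw [Multiset.mem_toFinset, mem_roots (sub_C_ne_zero hG x), IsRoot.def, eval_sub, eval_C, sub_eq_zero]

theorem ncard_fib {G : K[X]} (hG : 0 < G.natDegree) (x : K) :
    {y : K | G.eval y = x}.ncard = (fib G x).card := by
  have h : {y : K | G.eval y = x} = ↑(fib G x) := by
    ext y
    rw [Finset.mem_coe, mem_fib hG]
    rfl
  rw [h, Set.ncard_coe_finset]

theorem mu_eq {G : K[X]} {y x : K} (h : G.eval y = x) : mu G y = (G - C x).rootMultiplicity y := by
  unfold mu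
  rw [h]

/-- A polynomial whose roots except `w` have multiplicities divisible by `m`. -/
theorem exists_form [IsAlgClosed K] (f : K[X]) (hf : f ≠ 0) (w : K) (m : ℕ) (hm : 1 ≤ m)
    (h : ∀ y, y ≠ w → m ∣ f.rootMultiplicity y) :
    ∃ S₁ : K[X], f = (X - C w) ^ (f.rootMultiplicity w) * S₁ ^ m := by
  classical
  obtain ⟨c, hc⟩ := IsAlgClosed.exists_pow_nat_eq f.leadingCoeff (by omega : 0 < m)
  refine ⟨C c * ∏ y ∈ f.roots.toFinset.erase w, (X - C y) ^ (f.rootMultiplicity y / m), ?_⟩
  have e1 : f = C f.leadingCoeff * ∏ y ∈ f.roots.toFinset, (X - C y) ^ f.rootMultiplicity y := by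
    rw [← prod_multiset_root_eq_finset_root]
    exact (IsAlgClosed.splits f).eq_prod_roots
  have e2 : ∏ y ∈ f.roots.toFinset, (X - C y) ^ f.rootMultiplicity y =
      (X - C w) ^ (f.rootMultiplicity w) *
        ∏ y ∈ f.roots.toFinset.erase w, (X - C y) ^ f.rootMultiplicity y := by
    by_cases hw : w ∈ f.roots.toFinset
    · exact (Finset.mul_prod_erase _ _ hw).symm
    · rw [Finset.erase_eq_of_notMem hw]
      have h0 : f.rootMultiplicity w = 0 := by
        rw [rootMultiplicity_eq_zero_iff]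
        intro hr
        exact absurd (Multiset.mem_toFinset.mpr ((mem_roots hf).mpr hr)) hw
      rw [h0, pow_zero, one_mul]
  have e3 : (C c * ∏ y ∈ f.roots.toFinset.erase w, (X - C y) ^ (f.rootMultiplicity y / m)) ^ m =
      C f.leadingCoeff * ∏ y ∈ f.roots.toFinset.erase w, (X - C y) ^ f.rootMultiplicity y := by
    rw [mul_pow, ← C_pow, hc, ← Finset.prod_pow]
    refine congrArg (fun t => C f.leadingCoeff * t) ?_
    refine Finset.prod_congr rfl fun y hy => ?_
    rw [← pow_mul, Nat.div_mul_cancel (h y (Finset.ne_of_mem_erase hy))]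
  rw [e3]
  calc f = C f.leadingCoeff * ∏ y ∈ f.roots.toFinset, (X - C y) ^ f.rootMultiplicity y := e1
    _ = _ := by rw [e2]; ring

/-- Over `x` there is the point `y₀` and all the other points have multiplicities divisible by `q`. -/
def Good (P : K[X]) (q : ℕ) (x y₀ : K) : Prop :=
  P.eval y₀ = x ∧ ∀ y, y ≠ y₀ → P.eval y = x → q ∣ mu P y

theorem Good.card_le (hMUL : S_MUL K) {P : K[X]} (hd : 0 < P.natDegree) {q : ℕ} {x y₀ : K}
    (h : Good P q x y₀) :
    1 ≤ (fib P x).card ∧ ((fib P x).card - 1) * q + 1 ≤ P.natDegree := by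
  classical
  obtain ⟨_, hM2, hM3⟩ := hMUL
  have hy : y₀ ∈ fib P x := (mem_fib hd x y₀).mpr h.1
  have hs := hM3 P hd x (fib P x) (fun y => mem_fib hd x y)
  rw [← Finset.add_sum_erase _ _ hy] at hs
  have hc : (fib P x).card - 1 = ((fib P x).erase y₀).card := (Finset.card_erase_of_mem hy).symm
  have hle : ((fib P x).erase y₀).card • q ≤ ∑ y ∈ (fib P x).erase y₀, mu P y := by
    refine Finset.card_nsmul_le_sum _ _ _ fun y hy' => ?_
    rw [Finset.mem_erase, mem_fib hd] at hy'
    exact Nat.le_of_dvd (hM2 P hd y) (h.2 y hy'.1 hy'.2)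
  rw [smul_eq_mul] at hle
  refine ⟨Finset.card_pos.mpr ⟨y₀, hy⟩, ?_⟩
  rw [hc]
  have h1 := hM2 P hd y₀
  omega

theorem Good.form [IsAlgClosed K] {P : K[X]} (hd : 0 < P.natDegree) {m : ℕ} (hm : 1 ≤ m) {x y₀ : K}
    (h : Good P m x y₀) : ∃ G : K[X], P - C x = (X - C y₀) ^ (mu P y₀) * G ^ m := by
  rw [mu_eq h.1]
  refine exists_form _ (sub_C_ne_zero hd x) y₀ m hm fun y hy => ?_
  by_cases hx : P.eval y = x
  · rw [← mu_eq hx]
    exact h.2 y hy hx
  · have h0 : (P - C x).rootMultiplicity y = 0 := by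
      rw [rootMultiplicity_eq_zero_iff]
      intro hr
      rw [IsRoot.def, eval_sub, eval_C, sub_eq_zero] at hr
      exact absurd hr hx
    rw [h0]
    exact dvd_zero _

/-- The set `T_j`. -/
def T (P : K[X]) (w : K) (q j : ℕ) (y : K) : Prop :=
  (it P j).eval y = w ∧ ¬ q ∣ mu (it P j) y

theorem T_lift (hMUL : S_MUL K) {P : K[X]} (hd : 0 < P.natDegree) {l a : ℕ} (hl : l.Prime)
    (hld : ¬ l ∣ P.natDegree) {w : K} {j : ℕ} {x : K} (hx : T P w (l ^ a) j x) :
    ∃ y, T P w (l ^ a) (j + 1) y ∧ P.eval y = x := by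
  obtain ⟨hM1, _, hM3⟩ := hMUL
  have h1 : ∃ y, P.eval y = x ∧ ¬ l ∣ mu P y := by
    by_contra hcon
    push Not at hcon
    apply hld
    rw [← hM3 P hd x (fib P x) (fun y => mem_fib hd x y)]
    refine Finset.dvd_sum fun y hy => ?_
    exact hcon y ((mem_fib hd x y).mp hy)
  obtain ⟨y, hy1, hy2⟩ := h1
  refine ⟨y, ⟨?_, ?_⟩, hy1⟩
  · rw [it_succ', eval_comp, hy1]
    exact hx.1
  · have hdj : 0 < (it P j).natDegree := by
      rw [it_natDegree]
      exact pow_pos hd j
    rw [it_succ', hM1 (it P j) P hdj hd y, hy1]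
    intro hdv
    have hco : Nat.Coprime (l ^ a) (mu P y) := Nat.Coprime.pow_left a ((Nat.Prime.coprime_iff_not_dvd hl).mpr hy2)
    exact hx.2 (hco.dvd_of_dvd_mul_right hdv)

theorem T_unique (hMUL : S_MUL K) {P : K[X]} (hd : 0 < P.natDegree) {l a : ℕ} (hl : l.Prime)
    (hld : ¬ l ∣ P.natDegree) {w : K} {N : ℕ}
    (hT : ∀ y, y ≠ w → (it P N).eval y = w → l ^ a ∣ mu (it P N) y) :
    ∀ k j, j + k = N → ∀ x y, T P w (l ^ a) j x → T P w (l ^ a) j y → x = y := by
  intro k
  induction k with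
  | zero =>
    intro j hj x y hx hy
    rw [Nat.add_zero] at hj
    subst hj
    have h1 : ∀ z, T P w (l ^ a) j z → z = w := by
      intro z hz
      by_contra hzw
      exact hz.2 (hT z hzw hz.1)
    rw [h1 x hx, h1 y hy]
  | succ k ih =>
    intro j hj x y hx hy
    obtain ⟨x', hx', hxx⟩ := T_lift hMUL hd hl hld hx
    obtain ⟨y', hy', hyy⟩ := T_lift hMUL hd hl hld hy
    have h1 := ih (j + 1) (by omega) x' y' hx' hy'
    rw [← hxx, ← hyy, h1]

theorem T_not_dvd (hMUL : S_MUL K) {P : K[X]} (hd : 0 < P.natDegree) {l a : ℕ} (hl : l.Prime)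
    (ha : 1 ≤ a) (hld : ¬ l ∣ P.natDegree) {w : K} {N : ℕ}
    (hT : ∀ y, y ≠ w → (it P N).eval y = w → l ^ a ∣ mu (it P N) y) {j : ℕ} (hj : j ≤ N) {x : K}
    (hx : T P w (l ^ a) j x) : ¬ l ∣ mu (it P j) x := by
  intro hdv
  have hdj : 0 < (it P j).natDegree := by
    rw [it_natDegree]
    exact pow_pos hd j
  have h1 : l ∣ (it P j).natDegree := by
    rw [← hMUL.2.2 (it P j) hdj w (fib (it P j) w) (fun y => mem_fib hdj w y)]
    refine Finset.dvd_sum fun y hy => ?_
    rw [mem_fib hdj] at hy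
    by_cases hxy : y = x
    · rw [hxy]
      exact hdv
    · by_contra hcon
      refine hxy (T_unique hMUL hd hl hld hT (N - j) j (by omega) y x ⟨hy, ?_⟩ hx)
      intro h2
      exact hcon ((dvd_pow_self l (by omega)).trans h2)
  rw [it_natDegree] at h1
  exact hld (hl.dvd_of_dvd_pow h1)

theorem T_good (hMUL : S_MUL K) {P : K[X]} (hd : 0 < P.natDegree) {l a : ℕ} (hl : l.Prime)
    (ha : 1 ≤ a) (hld : ¬ l ∣ P.natDegree) {w : K} {N : ℕ}
    (hT : ∀ y, y ≠ w → (it P N).eval y = w → l ^ a ∣ mu (it P N) y) {j : ℕ} (hj : j < N) {x : K}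
    (hx : T P w (l ^ a) j x) : ∃ y₀, T P w (l ^ a) (j + 1) y₀ ∧ Good P (l ^ a) x y₀ := by
  obtain ⟨y₀, hy₀, hPy₀⟩ := T_lift hMUL hd hl hld hx
  refine ⟨y₀, hy₀, hPy₀, fun y hy hPy => ?_⟩
  have hdj : 0 < (it P j).natDegree := by
    rw [it_natDegree]
    exact pow_pos hd j
  have hev : (it P (j + 1)).eval y = w := by
    rw [it_succ', eval_comp, hPy]
    exact hx.1
  have h1 : l ^ a ∣ mu (it P (j + 1)) y := by
    by_contra hcon
    exact hy (T_unique hMUL hd hl hld hT (N - (j + 1)) (j + 1) (by omega) y y₀ ⟨hev, hcon⟩ hy₀)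
  rw [it_succ', hMUL.1 (it P j) P hdj hd y, hPy] at h1
  have hco : Nat.Coprime (l ^ a) (mu (it P j) x) :=
    Nat.Coprime.pow_left a ((Nat.Prime.coprime_iff_not_dvd hl).mpr
      (T_not_dvd hMUL hd hl ha hld hT hj.le hx))
  exact hco.dvd_of_dvd_mul_left h1

theorem key [IsAlgClosed K] (hRH : S_RH K) (hMUL : S_MUL K) (P : K[X]) (hd : 2 ≤ P.natDegree)
    (N : ℕ) (hN : 1 ≤ N) (w : K) (l a : ℕ) (hl : l.Prime) (ha : 1 ≤ a) (hld : ¬ l ∣ P.natDegree)
    (hT : ∀ y, y ≠ w → (it P N).eval y = w → l ^ a ∣ mu (it P N) y) :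
    Cheb P ∨ (∀ y, y ≠ w → P.eval y = w → l ^ a ∣ mu P y) := by
  classical
  have hd0 : 0 < P.natDegree := by omega
  have hq : 2 ≤ l ^ a := hl.two_le.trans (Nat.le_self_pow (by omega) l)
  have hTN : ∀ z, T P w (l ^ a) N z → z = w := by
    intro z hz
    by_contra hzw
    exact hz.2 (hT z hzw hz.1)
  have hT0 : T P w (l ^ a) 0 w := by
    refine ⟨by rw [it_zero, eval_X], ?_⟩
    have h1 : mu (it P 0) w = 1 := by
      unfold mu
      rw [it_zero, eval_X, rootMultiplicity_X_sub_C_self]
    rw [h1]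
    intro h2
    have := Nat.le_of_dvd one_pos h2
    omega
  obtain ⟨s1, hs1, hg0⟩ := T_good hMUL hd0 hl ha hld hT (by omega : 0 < N) hT0
  by_cases h1w : s1 = w
  · right
    intro y hy hPy
    rw [h1w] at hg0
    exact hg0.2 y hy hPy
  · left
    have hN1 : 1 < N := by
      rcases Nat.lt_or_ge 1 N with h | h
      · exact h
      · have h3 : N = 1 := by omega
        rw [h3] at hTN
        exact absurd (hTN s1 hs1) h1w
    obtain ⟨s2, hs2, hg1⟩ := T_good hMUL hd0 hl ha hld hT hN1 hs1
    have h21 : s2 ≠ s1 := by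
      intro h
      apply h1w
      have h3 := hg1.1
      rw [h] at h3
      rw [← h3]
      exact hg0.1
    obtain ⟨hc0, hb0⟩ := hg0.card_le hMUL hd0
    obtain ⟨hc1, hb1⟩ := hg1.card_le hMUL hd0
    have h2w : s2 = w := by
      by_contra h2w
      have hN2 : 2 < N := by
        rcases Nat.lt_or_ge 2 N with h | h
        · exact h
        · have h3 : N = 2 := by omega
          rw [h3] at hTN
          exact absurd (hTN s2 hs2) h2w
      obtain ⟨s3, hs3, hg2⟩ := T_good hMUL hd0 hl ha hld hT hN2 hs2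
      obtain ⟨hc2, hb2⟩ := hg2.card_le hMUL hd0
      have h3 := hRH P hd0 {w, s1, s2}
      rw [Finset.sum_insert (by
          rw [Finset.mem_insert, Finset.mem_singleton]
          intro h
          rcases h with h | h
          · exact h1w h.symm
          · exact h2w h.symm),
        Finset.sum_insert (by
          rw [Finset.mem_singleton]
          exact fun h => h21 h.symm), Finset.sum_singleton, ncard_fib hd0, ncard_fib hd0,
        ncard_fib hd0] at h3
      have e0 : ((fib P w).card - 1) * 2 ≤ ((fib P w).card - 1) * l ^ a := Nat.mul_le_mul_left _ hq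
      have e1 : ((fib P s1).card - 1) * 2 ≤ ((fib P s1).card - 1) * l ^ a := Nat.mul_le_mul_left _ hq
      have e2 : ((fib P s2).card - 1) * 2 ≤ ((fib P s2).card - 1) * l ^ a := Nat.mul_le_mul_left _ hq
      omega
    have hq2 : l ^ a = 2 := by
      have h3 := hRH P hd0 {w, s1}
      rw [Finset.sum_insert (by
          rw [Finset.mem_singleton]
          exact fun h => h1w h.symm), Finset.sum_singleton, ncard_fib hd0, ncard_fib hd0] at h3
      by_contra hne
      have hq3 : 3 ≤ l ^ a := by omega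
      have e0 : ((fib P w).card - 1) * 3 ≤ ((fib P w).card - 1) * l ^ a := Nat.mul_le_mul_left _ hq3
      have e1 : ((fib P s1).card - 1) * 3 ≤ ((fib P s1).card - 1) * l ^ a := Nat.mul_le_mul_left _ hq3
      omega
    have hl2 : l ∣ 2 := by
      rw [← hq2]
      exact dvd_pow_self l (by omega)
    have hleq : l = 2 := (Nat.prime_dvd_prime_iff_eq hl Nat.prime_two).mp hl2
    have hn1 : ¬ 2 ∣ mu P s1 := by
      have h3 := T_not_dvd hMUL hd0 hl ha hld hT hN hs1
      rw [it_one, hleq] at h3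
      exact h3
    have hn2 : ¬ 2 ∣ mu P w := by
      have h3 := T_not_dvd hMUL hd0 hl ha hld hT (by omega : 1 + 1 ≤ N) hs2
      rw [it_succ', it_one, hMUL.1 P P hd0 hd0, hleq, h2w] at h3
      intro h4
      exact h3 (Dvd.dvd.mul_left h4 _)
    rw [hq2] at hg0 hg1
    rw [h2w] at hg1
    obtain ⟨G0, hG0⟩ := hg0.form hd0 (by norm_num)
    obtain ⟨G1, hG1⟩ := hg1.form hd0 (by norm_num)
    obtain ⟨k1, hk1⟩ : ∃ k, mu P s1 = 2 * k + 1 := ⟨mu P s1 / 2, by omega⟩
    obtain ⟨k0, hk0⟩ : ∃ k, mu P w = 2 * k + 1 := ⟨mu P w / 2, by omega⟩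
    refine ⟨w, s1, fun h => h1w h.symm, (X - C s1) ^ k1 * (X - C w) ^ k0 * G0 * G1, ?_⟩
    rw [hG0, hG1, hk0, hk1]
    ring

end

theorem t_A2 {K : Type u} [Field K] [IsAlgClosed K] [CharZero K] (hRH : S_RH K) (hMUL : S_MUL K) :
    S_A2 K := by
  classical
  intro P N m r w S hd hN hm hco hit
  have hd0 : 0 < P.natDegree := by omega
  by_cases hCheb : Cheb P
  · exact Or.inl hCheb
  · right
    have hdN : 0 < (it P N).natDegree := by
      rw [it_natDegree]
      exact pow_pos hd0 N
    have hne : (X - C w) ^ r * S ^ m ≠ 0 := by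
      rw [← hit]
      exact sub_C_ne_zero hdN w
    have hmul : ∀ y, y ≠ w → (it P N).eval y = w → m ∣ mu (it P N) y := by
      intro y hy hyw
      rw [mu_eq hyw, hit, rootMultiplicity_mul hne, ← count_roots, ← count_roots, roots_pow, roots_pow,
        roots_X_sub_C, Multiset.count_nsmul, Multiset.count_nsmul, Multiset.count_singleton,
        if_neg hy, mul_zero, zero_add]
      exact dvd_mul_right _ _
    have hall : ∀ y, y ≠ w → P.eval y = w → m ∣ mu P y := by
      intro y hy hyw
      rw [Nat.dvd_iff_prime_pow_dvd_dvd]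
      intro l k hl hlk
      rcases Nat.eq_zero_or_pos k with hk | hk
      · rw [hk, pow_zero]
        exact one_dvd _
      · have hlm : l ∣ m := (dvd_pow_self l (by omega)).trans hlk
        have hld : ¬ l ∣ P.natDegree := by
          intro h
          have h1 := Nat.dvd_gcd hlm h
          rw [Nat.Coprime.gcd_eq_one hco] at h1
          exact hl.one_lt.ne' (Nat.dvd_one.mp h1)
        rcases key hRH hMUL P hd N hN w l k hl hk hld
          (fun z hz hzw => hlk.trans (hmul z hz hzw)) with h | h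
        · exact absurd h hCheb
        · exact h y hy hyw
    refine ⟨(P - C w).rootMultiplicity w, exists_form _ (sub_C_ne_zero hd0 w) w m (by omega) ?_⟩
    intro y hy
    by_cases hx : P.eval y = w
    · rw [← mu_eq hx]
      exact hall y hy hx
    · have h0 : (P - C w).rootMultiplicity y = 0 := by
        rw [rootMultiplicity_eq_zero_iff]
        intro hr
        rw [IsRoot.def, eval_sub, eval_C, sub_eq_zero] at hr
        exact absurd hr hx
      rw [h0]
      exact dvd_zero _

end Pool.Agent.H707.CH211
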